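import Pool.Agent.Y535.PEG.StmB

/-! Signs of the squares inscribed in a simple generic polygon. -/

set_option autoImplicit false
open Complex Set Topology Metric

namespace Pool.Agent.Y26.PEG

open Pool.Agent.H763R2 Pool.Agent.H763R2.An Pool.Agent.Y535.PEG
open Sq (Dv Cv)

variable {q : ℝ → ℂ}

theorem lin_deriv {t η : ℝ} {e : ℂ} (hη : 0 < η) (h : Lin q t e η) : deriv q t = e := by
  have h1 : (fun s : ℝ => q (t + s)) =ᶠ[𝓝 0] fun s : ℝ => q t + s * e := by
    filter_upwards [Metric.ball_mem_nhds (0 : ℝ) hη] with s hs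
    refine h s ?_
    rw [Metric.mem_ball, dist_zero_right, Real.norm_eq_abs] at hs
    exact hs.le
  have h2 : HasDerivAt (fun s : ℝ => q t + s * e) e 0 := by
    have := ((hasDerivAt_id (0 : ℝ)).ofReal_comp.mul_const e).const_add (q t)
    simpa using this
  have h3 : HasDerivAt (fun s : ℝ => q (t + s)) e 0 := h2.congr_of_eventuallyEq h1
  have h4 : HasDerivAt q e t := by
    have := HasDerivAt.comp_sub_const (f := fun s : ℝ => q (t + s)) (x := t) (a := t) (f' := e)
      (by rw [sub_self]; exact h3)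
    simpa using this
  exact h4.deriv

/-- direction at a simple point -/
noncomputable def dr (q : ℝ → ℂ) (z : ℂ) : ℂ := deriv q (pr q z)

theorem simple_dr (L : Loop q) {x : ℝ} (h : Simple q (q x)) :
    ∃ η > 0, dr q (q x) ≠ 0 ∧ Lin q x (dr q (q x)) η := by
  obtain ⟨e, η, he, hη, hl⟩ := h.lin L
  obtain ⟨t, _, _, _, _, h0, _, hf⟩ := h
  have h1 := (pr_spec L (z := q x) ⟨x, rfl⟩).2
  obtain ⟨n, hn⟩ := hf _ h1
  obtain ⟨m, hm⟩ := hf x rfl
  have h2 : pr q (q x) = x + ((n - m : ℤ) : ℝ) := by push_cast; linarith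
  have h3 : Lin q (pr q (q x)) e η := by
    intro s hs
    rw [h2, show x + ((n - m : ℤ) : ℝ) + s = x + s + ((n - m : ℤ) : ℝ) by ring, L.per_int,
      L.per_int]
    exact hl s hs
  have h4 : dr q (q x) = e := lin_deriv hη h3
  rw [h4]
  exact ⟨η, hη, he, hl⟩

/-- the determinant of the four directions -/
noncomputable def bb (q : ℝ → ℂ) (z : ℝ × ℝ) : ℝ :=
  Dt (dr q (q z.1)) (dr q (q z.2)) (dr q (CC q z.1 z.2)) (dr q (DD q z.1 z.2))

open Classical in
noncomputable def jj (q : ℝ → ℂ) (z : ℝ × ℝ) : ℤ := if 0 < bb q z then 1 else -1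

/-- the local picture at a zero -/
theorem local_pic (G : Gen q) (J : Inj q) {τ : ℝ} (T : SGN q τ) {x y : ℝ}
    (hz : (x, y) ∈ Zq q) : ∃ (U V : ℂ) (r0 : ℝ), 0 < r0 ∧
      U.re * V.im - U.im * V.re = bb q (x, y) ∧
      ∀ s t : ℝ, |s| ≤ r0 → |t| ≤ r0 →
        (0 ≤ τ * (GG q (mgc q) (x + s) (y + (s + t)) * (starRingEnd ℂ) (s * U + t * V)).re) ∧
        (s * U + t * V ≠ 0 →
        0 < τ * (GG q (mgc q) (x + s) (y + (s + t)) * (starRingEnd ℂ) (s * U + t * V)).re) ∧
        (s * U + t * V = 0 → GG q (mgc q) (x + s) (y + (s + t)) = 0) := by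
  obtain ⟨⟨h1, h2⟩, h3, h4⟩ := hz
  simp only at h1 h2 h3 h4
  obtain ⟨s1, s2, s3, s4⟩ := G.sq x y (J x y h1 h2) h3 h4
  obtain ⟨tD, hD⟩ := h3
  obtain ⟨tC, hC⟩ := h4
  have s3' : Simple q (q tC) := by rw [hC]; exact s3
  have s4' : Simple q (q tD) := by rw [hD]; exact s4
  obtain ⟨η1, hη1, a0, l1⟩ := simple_dr G.L s1
  obtain ⟨η2, hη2, b0, l2⟩ := simple_dr G.L s2
  obtain ⟨η3, hη3, c0, l3⟩ := simple_dr G.L s3'
  obtain ⟨η4, hη4, d0, l4⟩ := simple_dr G.L s4'
  obtain ⟨R3, hR3, T3⟩ := T.2 tC _ _ c0 hη3 l3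
  obtain ⟨R4, hR4, T4⟩ := T.2 tD _ _ d0 hη4 l4
  rw [hC] at T3 c0
  rw [hD] at T4 d0
  set a := dr q (q x) with ha
  set b := dr q (q y) with hb
  set c := dr q (CC q x y) with hc
  set d := dr q (DD q x y) with hd
  set m := 2 * ‖a‖ + 4 * ‖b‖ + 1 with hm
  have hm0 : 0 < m := by positivity
  refine ⟨⟨cr d ((1 - I) * a + I * b), cr c ((1 + I) * b - I * a)⟩,
    ⟨cr d (I * b), cr c ((1 + I) * b)⟩, min (min η1 (η2 / 2)) (min R3 R4 / (2 * m)), ?_, ?_, ?_⟩
  · have := lt_min hR3 hR4
    positivity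
  · show cr d ((1 - I) * a + I * b) * cr c ((1 + I) * b) -
      cr c ((1 + I) * b - I * a) * cr d (I * b) = Dt a b c d
    rw [cr_add, cr_sub]
    unfold Dt
    rw [show -I * a = -(I * a) by ring, cr_neg]
    ring
  · intro s t hs ht
    set r0 := min (min η1 (η2 / 2)) (min R3 R4 / (2 * m)) with hr0
    have r1 : r0 ≤ η1 := (min_le_left _ _).trans (min_le_left _ _)
    have r2 : r0 ≤ η2 / 2 := (min_le_left _ _).trans (min_le_right _ _)
    have r3 : r0 ≤ min R3 R4 / (2 * m) := min_le_right _ _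
    have rm : r0 * m < min R3 R4 := by
      have hR := lt_min hR3 hR4
      rw [le_div_iff₀ (by positivity)] at r3
      have : 0 ≤ r0 := (abs_nonneg s).trans hs
      nlinarith
    have hst : |s + t| ≤ 2 * r0 := (abs_add_le s t).trans (by linarith)
    have es : q (x + s) = q x + s * a := l1 s (hs.trans r1)
    have et : q (y + (s + t)) = q y + ((s + t : ℝ) : ℂ) * b := l2 (s + t) (by linarith)
    set zD : ℂ := s * ((1 - I) * a + I * b) + t * (I * b) with hzD
    set zC : ℂ := s * ((1 + I) * b - I * a) + t * ((1 + I) * b) with hzC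
    have eD : DD q (x + s) (y + (s + t)) = DD q x y + zD := by
      rw [hzD]; unfold DD Dv; rw [es, et]; push_cast; ring
    have eC : CC q (x + s) (y + (s + t)) = CC q x y + zC := by
      rw [hzC]; unfold CC Cv; rw [es, et]; push_cast; ring
    have na : ‖(s : ℂ)‖ ≤ r0 := by rw [norm_real, Real.norm_eq_abs]; exact hs
    have nb : ‖(t : ℂ)‖ ≤ r0 := by rw [norm_real, Real.norm_eq_abs]; exact ht
    have r00 : 0 ≤ r0 := (abs_nonneg s).trans hs
    have n1 : ‖(1 - I) * a + I * b‖ ≤ 2 * ‖a‖ + ‖b‖ := by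
      have k1 := norm_add_le ((1 - I) * a) (I * b)
      have k2 := norm_sub_le (1 : ℂ) I
      rw [norm_mul, norm_mul, norm_I, one_mul] at k1
      rw [norm_one, norm_I] at k2
      have := mul_le_mul_of_nonneg_right k2 (norm_nonneg a)
      linarith
    have n2 : ‖(1 + I) * b - I * a‖ ≤ 2 * ‖b‖ + ‖a‖ := by
      have k1 := norm_sub_le ((1 + I) * b) (I * a)
      have k2 := norm_add_le (1 : ℂ) I
      rw [norm_mul, norm_mul, norm_I, one_mul] at k1
      rw [norm_one, norm_I] at k2
      have := mul_le_mul_of_nonneg_right k2 (norm_nonneg b)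
      linarith
    have n3 : ‖I * b‖ ≤ ‖b‖ := by rw [norm_mul, norm_I, one_mul]
    have n4 : ‖(1 + I) * b‖ ≤ 2 * ‖b‖ := by
      have k2 := norm_add_le (1 : ℂ) I
      rw [norm_one, norm_I] at k2
      rw [norm_mul]
      have := mul_le_mul_of_nonneg_right k2 (norm_nonneg b)
      linarith
    have bD : ‖zD‖ ≤ r0 * m := by
      have k := norm_add_le (s * ((1 - I) * a + I * b)) (t * (I * b))
      rw [norm_mul (s : ℂ), norm_mul (t : ℂ)] at k
      have k1 := mul_le_mul na n1 (norm_nonneg _) r00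
      have k2 := mul_le_mul nb n3 (norm_nonneg _) r00
      have k3 := mul_nonneg r00 (norm_nonneg b)
      rw [hm]; nlinarith
    have bC : ‖zC‖ ≤ r0 * m := by
      have k := norm_add_le (s * ((1 + I) * b - I * a)) (t * ((1 + I) * b))
      rw [norm_mul (s : ℂ), norm_mul (t : ℂ)] at k
      have k1 := mul_le_mul na n2 (norm_nonneg _) r00
      have k2 := mul_le_mul nb n4 (norm_nonneg _) r00
      have k3 := mul_nonneg r00 (norm_nonneg a)
      rw [hm]; nlinarith
    obtain ⟨p3, m3, z3⟩ := T3 zC (bC.trans_lt (rm.trans_le (min_le_left _ _)))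
    obtain ⟨p4, m4, z4⟩ := T4 zD (bD.trans_lt (rm.trans_le (min_le_right _ _)))
    have cD : cr d zD = s * cr d ((1 - I) * a + I * b) + t * cr d (I * b) := by
      rw [hzD, cr_add d (s * _), cr_smul, cr_smul]
    have cC : cr c zC = s * cr c ((1 + I) * b - I * a) + t * cr c ((1 + I) * b) := by
      rw [hzC, cr_add c (s * _), cr_smul, cr_smul]
    have eW : (s : ℂ) * (⟨cr d ((1 - I) * a + I * b), cr c ((1 + I) * b - I * a)⟩ : ℂ) +
        (t : ℂ) * (⟨cr d (I * b), cr c ((1 + I) * b)⟩ : ℂ) = ⟨cr d zD, cr c zC⟩ := by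
      apply Complex.ext
      · simp only [add_re, re_ofReal_mul]; rw [cD]
      · simp only [add_im, im_ofReal_mul]; rw [cC]
    rw [eW]
    have eG : GG q (mgc q) (x + s) (y + (s + t)) =
        ⟨mgc q (DD q x y + zD), mgc q (CC q x y + zC)⟩ := by
      unfold GG
      rw [eD, eC]
      apply Complex.ext <;> simp
    rw [eG]
    have eR : ((⟨mgc q (DD q x y + zD), mgc q (CC q x y + zC)⟩ : ℂ) *
        (starRingEnd ℂ) (⟨cr d zD, cr c zC⟩ : ℂ)).re =
        mgc q (DD q x y + zD) * cr d zD + mgc q (CC q x y + zC) * cr c zC := by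
      simp [mul_re]
    rw [eR]
    have w4 : 0 ≤ τ * (mgc q (DD q x y + zD) * cr d zD) ∧
        (cr d zD ≠ 0 → 0 < τ * (mgc q (DD q x y + zD) * cr d zD)) := by
      rcases lt_trichotomy (cr d zD) 0 with h | h | h
      · have k := m4 h
        have : 0 < τ * (mgc q (DD q x y + zD) * cr d zD) := by
          rw [← mul_assoc]; exact mul_pos_of_neg_of_neg k h
        exact ⟨this.le, fun _ => this⟩
      · rw [h]; simp
      · have k := p4 h
        have : 0 < τ * (mgc q (DD q x y + zD) * cr d zD) := by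
          rw [← mul_assoc]; exact mul_pos k h
        exact ⟨this.le, fun _ => this⟩
    have w3 : 0 ≤ τ * (mgc q (CC q x y + zC) * cr c zC) ∧
        (cr c zC ≠ 0 → 0 < τ * (mgc q (CC q x y + zC) * cr c zC)) := by
      rcases lt_trichotomy (cr c zC) 0 with h | h | h
      · have k := m3 h
        have : 0 < τ * (mgc q (CC q x y + zC) * cr c zC) := by
          rw [← mul_assoc]; exact mul_pos_of_neg_of_neg k h
        exact ⟨this.le, fun _ => this⟩
      · rw [h]; simp
      · have k := p3 h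
        have : 0 < τ * (mgc q (CC q x y + zC) * cr c zC) := by
          rw [← mul_assoc]; exact mul_pos k h
        exact ⟨this.le, fun _ => this⟩
    refine ⟨by rw [mul_add]; exact add_nonneg w4.1 w3.1, fun hne => ?_, fun h0 => ?_⟩
    · rw [mul_add]
      by_cases k : cr d zD = 0
      · have k' : cr c zC ≠ 0 := fun k' => hne (by rw [k, k']; rfl)
        have := w3.2 k'
        linarith [w4.1]
      · have := w4.2 k
        linarith [w3.1]
    · have k1 : cr d zD = 0 := congrArg Complex.re h0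
      have k2 : cr c zC = 0 := congrArg Complex.im h0
      rw [z4 k1, z3 k2]; rfl

theorem bb_ne (G : Gen q) (J : Inj q) {τ : ℝ} (T : SGN q τ) {x y : ℝ}
    (hz : (x, y) ∈ Zq q) : bb q (x, y) ≠ 0 := by
  intro h0
  obtain ⟨U, V, r0, hr0, hdet, hloc⟩ := local_pic G J T hz
  rw [h0] at hdet
  -- a nontrivial relation
  obtain ⟨s0, t0, hst, hrel⟩ : ∃ s0 t0 : ℝ, (s0 ≠ 0 ∨ t0 ≠ 0) ∧ (s0 : ℂ) * U + (t0 : ℂ) * V = 0 := by
    by_cases k1 : V.re ≠ 0 ∨ -U.re ≠ 0
    · refine ⟨V.re, -U.re, k1, Complex.ext ?_ ?_⟩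
      · simp only [add_re, re_ofReal_mul, zero_re]; ring
      · simp only [add_im, im_ofReal_mul, zero_im]; linarith
    · push Not at k1
      obtain ⟨k1, k2⟩ := k1
      rw [neg_eq_zero] at k2
      by_cases k3 : V.im ≠ 0 ∨ -U.im ≠ 0
      · refine ⟨V.im, -U.im, k3, Complex.ext ?_ ?_⟩
        · simp only [add_re, re_ofReal_mul, zero_re]; rw [k1, k2]; ring
        · simp only [add_im, im_ofReal_mul, zero_im]; ring
      · push Not at k3
        obtain ⟨k3, k4⟩ := k3
        rw [neg_eq_zero] at k4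
        refine ⟨1, 0, Or.inl one_ne_zero, Complex.ext ?_ ?_⟩
        · simp only [add_re, re_ofReal_mul, zero_re]; rw [k1, k2]; ring
        · simp only [add_im, im_ofReal_mul, zero_im]; rw [k3, k4]; ring
  have hz0 := hz
  obtain ⟨⟨h1, h2⟩, -, -⟩ := hz0
  simp only at h1 h2
  set m := |s0| + |t0| + 1 with hm
  have hm0 : 0 < m := by positivity
  set δ := min (min r0 1) (min (y - x) (x + 1 - y)) / m with hδ
  have hδ0 : 0 < δ := by
    have : 0 < y - x := by linarith
    have : 0 < x + 1 - y := by linarith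
    positivity
  have key : ∀ l ∈ Ioo (0 : ℝ) δ, (x + l * s0, y + (l * s0 + l * t0)) ∈
      Zq q ∩ {p | |p.1| ≤ |x| + 1} := by
    intro l hl
    have hlm : l * m < min (min r0 1) (min (y - x) (x + 1 - y)) := by
      have := hl.2
      rwa [hδ, lt_div_iff₀ hm0] at this
    have e1 : |l * s0| ≤ l * m := by
      rw [abs_mul, abs_of_pos hl.1]
      apply mul_le_mul_of_nonneg_left _ hl.1.le
      rw [hm]; linarith [abs_nonneg t0]
    have e2 : |l * t0| ≤ l * m := by
      rw [abs_mul, abs_of_pos hl.1]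
      apply mul_le_mul_of_nonneg_left _ hl.1.le
      rw [hm]; linarith [abs_nonneg s0]
    have m1 := hlm.trans_le ((min_le_left _ _).trans (min_le_left _ _))
    have m2 := hlm.trans_le ((min_le_left _ _).trans (min_le_right _ _))
    have m3 := hlm.trans_le ((min_le_right _ _).trans (min_le_left _ _))
    have m4 := hlm.trans_le ((min_le_right _ _).trans (min_le_right _ _))
    have hU : (x + l * s0, y + (l * s0 + l * t0)) ∈ UU := by
      have e3 := abs_le.1 e2
      constructor
      · simp only; linarith [e3.1]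
      · simp only; linarith [e3.2]
    have hrel' : ((l * s0 : ℝ) : ℂ) * U + ((l * t0 : ℝ) : ℂ) * V = 0 := by
      have : ((l * s0 : ℝ) : ℂ) * U + ((l * t0 : ℝ) : ℂ) * V =
        (l : ℂ) * ((s0 : ℂ) * U + (t0 : ℂ) * V) := by push_cast; ring
      rw [this, hrel, mul_zero]
    have := (hloc (l * s0) (l * t0) (e1.trans m1.le) (e2.trans m1.le)).2.2 hrel'
    rw [Zq_iff G.L (mgc_sg G.L) hU] at this
    refine ⟨this, ?_⟩
    show |x + l * s0| ≤ |x| + 1
    exact (abs_add_le _ _).trans (by linarith)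
  have hinj : InjOn (fun l : ℝ => ((x + l * s0, y + (l * s0 + l * t0)) : ℝ × ℝ)) (Ioo 0 δ) := by
    intro l hl l' hl' e
    have e1 := congrArg Prod.fst e
    have e2 := congrArg Prod.snd e
    simp only at e1 e2
    have e3 : (l - l') * s0 = 0 := by linarith
    have e4 : (l - l') * t0 = 0 := by linarith
    rcases mul_eq_zero.1 e3 with k | k
    · linarith
    · rcases mul_eq_zero.1 e4 with k' | k'
      · linarith
      · rcases hst with h | h
        · exact absurd k h
        · exact absurd k' h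
  have hfin : (Ioo (0 : ℝ) δ).Finite :=
    Set.Finite.of_finite_image ((G.fin (|x| + 1)).subset (by
      rintro _ ⟨l, hl, rfl⟩; exact key l hl)) hinj
  exact (Ioo_infinite hδ0) hfin

theorem sgI : S_IDX → S_I := by
  intro hI q G J τ T
  refine ⟨jj q, ?_, ?_, ?_⟩
  · intro z _
    unfold jj
    split_ifs
    · exact Or.inl rfl
    · exact Or.inr rfl
  · rintro ⟨x, y⟩ hz
    obtain ⟨U, V, r0, hr0, hdet, hloc⟩ := local_pic G J T hz
    have hne := bb_ne G J T hz
    refine ⟨r0, hr0, fun r hr hr' => ?_⟩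
    have hc : Continuous fun p : ℝ × ℝ => GG q (mgc q) p.1 (p.1 + p.2) :=
      (GG_cont G.L (mgc_sg G.L).cont).comp (f := fun p : ℝ × ℝ => ((p.1, p.1 + p.2) : ℝ × ℝ))
        (by fun_prop)
    have := hI (fun x y => GG q (mgc q) x (x + y)) hc x (y - x) r0 U V τ hr0 (by rw [hdet]; exact hne)
      (fun s t hs ht hst => ?_) r hr hr'
    · rw [hdet] at this
      rw [this]
      unfold jj
      congr 2
    · obtain ⟨_, k1, _⟩ := hloc s t hs ht
      have e : x + s + (y - x + t) = y + (s + t) := by ring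
      simp only [e]
      apply k1
      intro h0
      have r1 : s * U.re + t * V.re = 0 := by
        have := congrArg Complex.re h0
        simpa only [add_re, re_ofReal_mul, zero_re] using this
      have r2 : s * U.im + t * V.im = 0 := by
        have := congrArg Complex.im h0
        simpa only [add_im, im_ofReal_mul, zero_im] using this
      have s0 : s * bb q (x, y) = 0 := by
        rw [← hdet]; linear_combination V.im * r1 - V.re * r2
      have t0 : t * bb q (x, y) = 0 := by
        rw [← hdet]; linear_combination U.re * r2 - U.im * r1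
      rcases hst with h | h
      · exact (mul_ne_zero h hne) s0
      · exact (mul_ne_zero h hne) t0
  · intro x y x' y' hz hz' e1 e2
    have n1 := bb_ne G J T hz
    have hD : DD q x' y' = q x := by
      unfold DD Dv; rw [e1, e2]; unfold CC Cv
      linear_combination (q y - q x) * I_mul_I
    have hC : CC q x' y' = DD q x y := by
      unfold CC Cv; rw [e1, e2]; unfold CC DD Cv Dv
      linear_combination (q y - q x) * I_mul_I
    have hb : bb q (x', y') = - bb q (x, y) := by
      unfold bb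
      simp only
      rw [hD, hC, e1, e2]
      exact Dt_rot _ _ _ _
    unfold jj
    rw [hb]
    rcases lt_or_gt_of_ne n1 with h | h
    · rw [if_pos (by linarith), if_neg (by linarith)]; rfl
    · rw [if_neg (by linarith), if_pos h]

end Pool.Agent.Y26.PEG
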